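import Pool.Agent.helper36.MP.SpecP

/-!
# Project mp: module LEI (identities between the level functions)
-/

set_option autoImplicit false

open Complex Metric Set Filter Topology MeasureTheory

noncomputable section

namespace MPS

theorem LEI_om (n : ℕ) (hn : 2 ≤ n) : IsPrimitiveRoot (om n) n :=
  Complex.isPrimitiveRoot_exp n (by omega)

theorem LEI_rt (n : ℕ) (hn : 2 ≤ n) (z : ℂ) : rt n z ^ n = z := by
  unfold rt
  rw [one_div]
  exact Complex.cpow_nat_inv_pow z (by omega)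

theorem LEI_omj (n : ℕ) (hn : 2 ≤ n) (j : ℕ) : (om n ^ j) ^ n = 1 := by
  rw [← pow_mul, mul_comm, pow_mul, (LEI_om n hn).pow_eq_one, one_pow]

theorem LEI_omne (n : ℕ) (j : ℕ) : om n ^ j ≠ 0 := pow_ne_zero _ (Complex.exp_ne_zero _)

theorem LEI_fdne (n : ℕ) (hn : 2 ≤ n) (y : ℂ) (hy : y ≠ 0) : fd n y ≠ 0 := by
  unfold fd
  refine mul_ne_zero ?_ (pow_ne_zero _ hy)
  exact Nat.cast_ne_zero.mpr (by omega)

/-- `ω^j * fd n (ω^j y) = fd n y` -/
theorem LEI_fd (n : ℕ) (hn : 2 ≤ n) (j : ℕ) (y : ℂ) : om n ^ j * fd n (om n ^ j * y) = fd n y := by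
  unfold fd
  rw [mul_pow]
  have h1 : om n ^ j * (om n ^ j) ^ (n - 1) = 1 := by
    rw [← pow_succ', Nat.sub_add_cancel (by omega : 1 ≤ n)]
    exact LEI_omj n hn j
  calc om n ^ j * (n * ((om n ^ j) ^ (n - 1) * y ^ (n - 1)))
      = (om n ^ j * (om n ^ j) ^ (n - 1)) * (n * y ^ (n - 1)) := by ring
    _ = n * y ^ (n - 1) := by rw [h1, one_mul]

theorem LEI_shift (F : ℕ → ℝ) (n : ℕ) (hF : ∀ j, F (j + n) = F j) (m : ℕ) :
    ∑ j ∈ Finset.range n, F (j + m) = ∑ j ∈ Finset.range n, F j := by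
  induction m with
  | zero => simp
  | succ m ih =>
    rw [← ih]
    have h1 := Finset.sum_range_succ (fun j => F (j + m)) n
    have h2 := Finset.sum_range_succ' (fun j => F (j + m)) n
    have h3 : F (n + m) = F (0 + m) := by
      rw [zero_add, add_comm, hF]
    have h4 : ∑ j ∈ Finset.range n, F (j + (m + 1)) = ∑ j ∈ Finset.range n, F (j + 1 + m) :=
      Finset.sum_congr rfl fun j _ => by congr 1; ring
    rw [h4]
    linarith

/-- all `n`-th roots -/
theorem LEI_roots (n : ℕ) (hn : 2 ≤ n) (F : ℂ → ℝ) (x y : ℂ) (hy : y ≠ 0) (h : x ^ n = y ^ n) :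
    ∑ j ∈ Finset.range n, F (om n ^ j * x) = ∑ j ∈ Finset.range n, F (om n ^ j * y) := by
  have : NeZero n := ⟨by omega⟩
  have h1 : (x / y) ^ n = 1 := by
    rw [div_pow, h, div_self (pow_ne_zero _ hy)]
  obtain ⟨m, _, hm⟩ := (LEI_om n hn).eq_pow_of_pow_eq_one h1
  have h2 : x = om n ^ m * y := by
    rw [hm, div_mul_cancel₀ _ hy]
  have h3 := LEI_shift (fun j => F (om n ^ j * y)) n (fun j => by
    show F (om n ^ (j + n) * y) = F (om n ^ j * y)
    rw [pow_add, (LEI_om n hn).pow_eq_one, mul_one]) m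
  rw [← h3]
  refine Finset.sum_congr rfl fun j _ => ?_
  show F (om n ^ j * x) = F (om n ^ (j + m) * y)
  rw [h2, pow_add, mul_assoc]

theorem LEI (hTB : TB_stmt) (hLEA : LEA_stmt) : LEI_stmt := by
  intro n k _ c b g G Ω Q hn hc hΩ hL
  obtain ⟨hA1, hA2, hA3, _, _, _⟩ := hLEA n k c b g G Ω Q hn hc hΩ hL
  have hn0 : n ≠ 0 := by omega
  -- (1)
  have p1 : ∀ q w, bet n b g G q 0 w = tau b g G q w := by
    intro q w
    unfold bet tau
    rw [pow_zero, one_pow, one_mul, one_mul]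
  -- chain rule
  have hder : ∀ q < Q, ∀ w ∈ Ω, deriv (G q) w = fd n (G (q + 1) w) * deriv (G (q + 1)) w := by
    intro q hq w hw
    have h1 : DifferentiableAt ℂ (G (q + 1)) w := (hL.diff (q + 1) hq).differentiableAt (hΩ.mem_nhds hw)
    have h2 : HasDerivAt (fun z => G (q + 1) z ^ n + c) (n * G (q + 1) w ^ (n - 1) * deriv (G (q + 1)) w) w :=
      (h1.hasDerivAt.pow n).add_const c
    have h3 : G q =ᶠ[𝓝 w] fun z => G (q + 1) z ^ n + c := by
      filter_upwards [hΩ.mem_nhds hw] with z hz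
      exact ((hL.rel q hq z hz).1).symm
    rw [h3.deriv_eq, h2.deriv]
    rfl
  -- (4)
  have p4 : ∀ q < Q, ∀ w ∈ Ω, ∀ j : ℕ,
      brv n b g (G q) w (om n ^ j * G (q + 1) w) = bet n b g G (q + 1) j w := by
    intro q hq w hw j
    have hy : G (q + 1) w ≠ 0 := (hL.rel q hq w hw).2
    unfold brv bet
    rw [hder q hq w hw]
    have h1 := LEI_fd n hn j (G (q + 1) w)
    have h2 : fd n (om n ^ j * G (q + 1) w) ≠ 0 := LEI_fdne n hn _ (mul_ne_zero (LEI_omne n j) hy)
    have h3 : fd n (G (q + 1) w) * deriv (G (q + 1)) w / fd n (om n ^ j * G (q + 1) w) =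
        om n ^ j * deriv (G (q + 1)) w := by
      rw [← h1, div_eq_iff h2]
      ring
    rw [h3]
    ring
  -- branch sums
  have hbr : ∀ q ≤ Q, ∀ w ∈ Ω, ∀ y : ℂ, y ≠ 0 → y ^ n + c = G q w →
      tau b g G q w = ∑ j ∈ Finset.range n, brv n b g (G q) w (om n ^ j * y) + eef n c b g G q w := by
    intro q hq w hw y hy hyw
    have h1 := hTB n k c b g hn hc y hy (fun i => by rw [hyw]; exact hA1 q hq w hw i)
    have h2 : ∑ j ∈ Finset.range n, brv n b g (G q) w (om n ^ j * y) =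
        deriv (G q) w ^ 2 * ∑ j ∈ Finset.range n, BB b g (om n ^ j * y) / fd n (om n ^ j * y) ^ 2 := by
      rw [Finset.mul_sum]
      refine Finset.sum_congr rfl fun j _ => ?_
      unfold brv
      rw [div_pow]
      ring
    rw [h2, h1, hyw]
    unfold tau eef
    ring
  -- (3)
  have p3 : ∀ q < Q, ∀ w ∈ Ω, tau b g G q w = tau b g G (q + 1) w +
      ∑ j ∈ Finset.Ico 1 n, bet n b g G (q + 1) j w + eef n c b g G q w := by
    intro q hq w hw
    rw [hbr q hq.le w hw (G (q + 1) w) (hL.rel q hq w hw).2 (hL.rel q hq w hw).1]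
    congr 1
    rw [Finset.sum_congr rfl fun j _ => p4 q hq w hw j, Finset.range_eq_Ico,
      Finset.sum_eq_sum_Ico_succ_bot (by omega : 0 < n), p1]
  -- deficit
  have hdf : ∀ q ≤ Q, ∀ w ∈ Ω, ∀ y : ℂ, y ≠ 0 → y ^ n + c = G q w →
      Df n c b g (G q w) * ‖deriv (G q) w‖ ^ 2 =
        ∑ j ∈ Finset.range n, ‖brv n b g (G q) w (om n ^ j * y)‖ - ‖tau b g G q w - eef n c b g G q w‖ := by
    intro q hq w hw y hy hyw
    unfold Df
    have h0 : rt n (G q w - c) ^ n = y ^ n := by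
      rw [LEI_rt n hn, ← hyw]
      ring
    rw [LEI_roots n hn (fun z => ‖BB b g z‖ / ‖fd n z‖ ^ 2) _ y hy h0, sub_mul, Finset.sum_mul]
    congr 1
    · refine Finset.sum_congr rfl fun j _ => ?_
      unfold brv
      rw [norm_mul, norm_pow, norm_div, div_pow]
      ring
    · unfold tau eef
      rw [← mul_sub, norm_mul, norm_pow]
      ring
  refine ⟨p1, fun w hw => hL.nat0.eq w hw, p3, p4, ?_, ?_⟩
  · intro q hq w hw
    rw [hdf q hq.le w hw (G (q + 1) w) (hL.rel q hq w hw).2 (hL.rel q hq w hw).1,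
      Finset.sum_congr rfl fun j _ => by rw [p4 q hq w hw j], Finset.range_eq_Ico,
      Finset.sum_eq_sum_Ico_succ_bot (by omega : 0 < n), p1]
  · intro q hq w hw hne
    have hy : rt n (G q w - c) ≠ 0 := by
      intro h
      have h1 := LEI_rt n hn (G q w - c)
      rw [h, zero_pow hn0] at h1
      exact hne (sub_eq_zero.mp h1.symm)
    have hyw : rt n (G q w - c) ^ n + c = G q w := by
      rw [LEI_rt n hn]
      ring
    exact ⟨hbr q hq w hw _ hy hyw, hdf q hq w hw _ hy hyw⟩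

end MPS
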